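import Pool.Agent.Helper15.DimerMain
import Pool.Agent.Helper15.DE.Final

open MeasureTheory Helper15.Dimer

namespace Pool.Agent.Results.MP_835ab5_pr.UniqueDimerMaximizer

/-- For the entropy function `dimerEnt` of dimer tilings of `ℤ³`, the maximizer of `Ent` on
`AF(R, b)` is unique for every region `R` and every boundary value `b`. -/
theorem result (R : Set E3) (hR : IsRegion R) (b : (E3 → ℝ) → ℝ) (g₁ g₂ : E3 → E3)
    (h₁ : IsMaximizer dimerEnt R b g₁) (h₂ : IsMaximizer dimerEnt R b g₂) :
    g₁ =ᵐ[volume] g₂ :=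
  main_theorem dimerEnt Helper15.DE.dimerEnt_continuousOn Helper15.DE.dimerEnt_strictConcaveOn
    R hR b g₁ g₂ h₁ h₂

end Pool.Agent.Results.MP_835ab5_pr.UniqueDimerMaximizer
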